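import Pool.Agent.H933.LL.Stm3
import Mathlib

/-!
# Normal plus Schatten operators satisfy `Rate` (statement `P_nor`)
-/

set_option autoImplicit false

open MeasureTheory Metric Filter Topology
open scoped Real InnerProductSpace

namespace Pool.Agent.H548.LL

open Pool.Agent.H933.LL

section

variable {H : Type} [NormedAddCommGroup H] [InnerProductSpace ℂ H]

/-- Singular values are bounded by the norm. -/
lemma sv_le {K : H →L[ℂ] H} {ι : Type} {e f : ι → H} {s : ι → ℝ} (he : Orthonormal ℂ e)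
    (hf : Orthonormal ℂ f) (hs : ∀ i, 0 ≤ s i)
    (hK : ∀ x, HasSum (fun i => ((s i : ℂ) * ⟪e i, x⟫_ℂ) • f i) (K x)) (j : ι) : s j ≤ ‖K‖ := by
  classical
  have h1 := hK (e j)
  have h2 : HasSum (fun i => ((s i : ℂ) * ⟪e i, e j⟫_ℂ) • f i) ((s j : ℂ) • f j) := by
    have h3 : (s j : ℂ) • f j = ((s j : ℂ) * ⟪e j, e j⟫_ℂ) • f j := by
      rw [inner_self_eq_norm_sq_to_K, he.norm_eq_one j]
      simp
    rw [h3]
    refine hasSum_single j fun i hi => ?_
    rw [he.inner_eq_zero hi, mul_zero, zero_smul]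
  have h4 : K (e j) = (s j : ℂ) • f j := h1.unique h2
  have h5 : ‖K (e j)‖ = s j := by
    rw [h4, norm_smul, hf.norm_eq_one j, mul_one, Complex.norm_real, Real.norm_eq_abs,
      abs_of_nonneg (hs j)]
  have h6 := K.le_opNorm (e j)
  rw [he.norm_eq_one j, mul_one] at h6
  linarith

/-- The norm of an orthogonal series with bounded multipliers. -/
lemma series_le {ι : Type} {e f : ι → H} (he : Orthonormal ℂ e) (hf : Orthonormal ℂ f)
    {m : ι → ℂ} {c : ℝ} (hc : 0 ≤ c) (hm : ∀ i, ‖m i‖ ≤ c) {x y : H}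
    (hy : HasSum (fun i => (m i * ⟪e i, x⟫_ℂ) • f i) y) : ‖y‖ ≤ c * ‖x‖ := by
  have h1 : ∀ t : Finset ι, ‖∑ i ∈ t, (m i * ⟪e i, x⟫_ℂ) • f i‖ ≤ c * ‖x‖ := by
    intro t
    have h2 : ‖∑ i ∈ t, (m i * ⟪e i, x⟫_ℂ) • f i‖ ^ 2 ≤ (c * ‖x‖) ^ 2 := by
      have h3 : ‖∑ i ∈ t, (m i * ⟪e i, x⟫_ℂ) • f i‖ ^ 2 = ∑ i ∈ t, ‖m i * ⟪e i, x⟫_ℂ‖ ^ 2 := by
        have h4 := hf.inner_sum (fun i => m i * ⟪e i, x⟫_ℂ) (fun i => m i * ⟪e i, x⟫_ℂ) t
        rw [inner_self_eq_norm_sq_to_K] at h4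
        have h5 : ∀ i, (starRingEnd ℂ) (m i * ⟪e i, x⟫_ℂ) * (m i * ⟪e i, x⟫_ℂ) =
            ((‖m i * ⟪e i, x⟫_ℂ‖ ^ 2 : ℝ) : ℂ) := by
          intro i
          rw [mul_comm, Complex.mul_conj, Complex.normSq_eq_norm_sq]
        rw [Finset.sum_congr rfl fun i _ => h5 i, ← Complex.ofReal_sum] at h4
        apply Complex.ofReal_injective
        rw [← h4]
        push_cast
        rfl
      rw [h3, mul_pow]
      have h6 := he.sum_inner_products_le x (s := t)
      calc ∑ i ∈ t, ‖m i * ⟪e i, x⟫_ℂ‖ ^ 2 ≤ ∑ i ∈ t, c ^ 2 * ‖⟪e i, x⟫_ℂ‖ ^ 2 := by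
            refine Finset.sum_le_sum fun i _ => ?_
            rw [norm_mul, mul_pow]
            exact mul_le_mul_of_nonneg_right (pow_le_pow_left₀ (norm_nonneg _) (hm i) 2)
              (sq_nonneg _)
        _ = c ^ 2 * ∑ i ∈ t, ‖⟪e i, x⟫_ℂ‖ ^ 2 := by rw [Finset.mul_sum]
        _ ≤ c ^ 2 * ‖x‖ ^ 2 := mul_le_mul_of_nonneg_left h6 (sq_nonneg _)
    exact abs_le_of_sq_le_sq' h2 (by positivity) |>.2
  have h7 : Tendsto (fun t : Finset ι => ‖∑ i ∈ t, (m i * ⟪e i, x⟫_ℂ) • f i‖) atTop (𝓝 ‖y‖) :=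
    Tendsto.norm hy
  exact le_of_tendsto' h7 h1

variable [CompleteSpace H]

/-- The resolvent of a normal operator. -/
lemma res_le {N : H →L[ℂ] H} (hN : IsStarNormal N) {z : ℂ} {d : ℝ} (hd : 0 < d)
    (hz : ∀ w ∈ spectrum ℂ N, d ≤ ‖z - w‖) : ‖resolvent N z‖ ≤ 1 / d := by
  have hz0 : z ∉ spectrum ℂ N := by
    intro h
    have := hz z h
    rw [sub_self, norm_zero] at this
    linarith
  have hu : IsUnit (algebraMap ℂ (H →L[ℂ] H) z - N) := by
    by_contra h
    exact hz0 h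
  obtain ⟨u, hu⟩ := hu
  have hnor : IsStarNormal (u : H →L[ℂ] H) := by
    rw [hu]
    refine ⟨?_⟩
    rw [star_sub, ← algebraMap_star_comm]
    exact Commute.sub_left (Algebra.commute_algebraMap_left _ _)
      (Commute.sub_right (Algebra.commute_algebraMap_right _ _) hN.star_comm_self)
  have hnor2 : IsStarNormal ((u⁻¹ : (H →L[ℂ] H)ˣ) : H →L[ℂ] H) := IsStarNormal.val_inv
  have hres : resolvent N z = ((u⁻¹ : (H →L[ℂ] H)ˣ) : H →L[ℂ] H) := by
    unfold resolvent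
    rw [← hu, Ring.inverse_unit]
  have hrad := IsStarNormal.spectralRadius_eq_nnnorm ((u⁻¹ : (H →L[ℂ] H)ˣ) : H →L[ℂ] H)
  have hle : spectralRadius ℂ ((u⁻¹ : (H →L[ℂ] H)ˣ) : H →L[ℂ] H) ≤ ENNReal.ofReal (1 / d) := by
    unfold spectralRadius
    refine iSup₂_le fun k hk => ?_
    rw [← spectrum.map_inv, Set.mem_inv, hu, ← spectrum.singleton_sub_eq] at hk
    obtain ⟨a, ha, w, hw, hk⟩ := Set.mem_sub.mp hk
    rw [Set.mem_singleton_iff] at ha
    rw [ha] at hk
    have h1 := hz w hw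
    have h2 : k = (z - w)⁻¹ := by rw [hk, inv_inv]
    have h3 : ‖k‖ ≤ 1 / d := by
      rw [h2, norm_inv, one_div]
      exact inv_anti₀ hd h1
    rw [← enorm_eq_nnnorm, ← ofReal_norm]
    exact ENNReal.ofReal_le_ofReal h3
  rw [hrad] at hle
  rw [hres]
  have h4 : ENNReal.ofReal ‖((u⁻¹ : (H →L[ℂ] H)ˣ) : H →L[ℂ] H)‖ ≤ ENNReal.ofReal (1 / d) := by
    rw [ofReal_norm]
    exact hle
  exact (ENNReal.ofReal_le_ofReal_iff (by positivity)).mp h4

/-- **P_nor** -/
theorem p_nor : P_nor := by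
  classical
  intro H _ _ _ N K E p hN hEc hEn hspec hp hK
  obtain ⟨ι, e, f, s, he, hf, hs, hsum, hKx⟩ := hK
  obtain ⟨Sp, hSg⟩ : ∃ S, S = ∑' i, s i ^ p := ⟨_, rfl⟩
  have hSg0 : 0 ≤ Sp := by
    rw [hSg]
    exact tsum_nonneg fun i => Real.rpow_nonneg (hs i) p
  obtain ⟨B, hB⟩ : ∃ B, B = ‖K‖ + 2 := ⟨_, rfl⟩
  have hKn := norm_nonneg K
  have hB0 : 0 < B := by rw [hB]; linarith
  have hsK := sv_le he hf hs hKx
  refine ⟨Sp * (2 * B) ^ p + B, max p 1, ⟨?_, ?_⟩⟩
  · intro z hz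
    by_contra h
    exact hz (hspec h)
  · intro d hd hd1
    obtain ⟨ρ, hρ⟩ : ∃ ρ, ρ = 1 / d + ‖K‖ + 1 := ⟨_, rfl⟩
    have h1d : 1 ≤ 1 / d := by
      rw [le_div_iff₀ hd]; linarith
    have hρ1 : 1 ≤ ρ := by rw [hρ]; linarith
    have hρ0 : 0 < ρ := by linarith
    have hρB : ρ ≤ B * d⁻¹ := by
      rw [hρ, hB, one_div]
      rw [one_div] at h1d
      nlinarith
    have hdA : ∀ q : ℝ, q ≤ max p 1 → d ^ (-q) ≤ d ^ (-(max p 1)) := fun q hq =>
      Real.rpow_le_rpow_of_exponent_ge hd hd1 (by linarith)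
    have hd1' : d⁻¹ ≤ d ^ (-(max p 1)) := by
      have := hdA 1 (le_max_right _ _)
      rwa [Real.rpow_neg_one] at this
    have hdA0 : 0 < d ^ (-(max p 1)) := Real.rpow_pos_of_pos hd _
    have hPB : 0 ≤ Sp * (2 * B) ^ p := mul_nonneg hSg0 (Real.rpow_nonneg (by linarith) _)
    -- the large singular values
    have hfin : {i | 1 / (2 * ρ) < s i}.Finite := by
      have h1 := hsum.tendsto_cofinite_zero
      have h2 : 0 < (1 / (2 * ρ)) ^ p := Real.rpow_pos_of_pos (by positivity) _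
      have h3 := h1.eventually (gt_mem_nhds h2)
      refine (Filter.eventually_cofinite.mp h3).subset fun i hi => ?_
      have hi' : 1 / (2 * ρ) < s i := hi
      show ¬ (s i ^ p < (1 / (2 * ρ)) ^ p)
      rw [not_lt]
      exact Real.rpow_le_rpow (by positivity) hi'.le hp.le
    obtain ⟨I, hI⟩ : ∃ I : Finset ι, I = hfin.toFinset := ⟨_, rfl⟩
    have hmem : ∀ i, i ∈ I ↔ 1 / (2 * ρ) < s i := by
      intro i
      rw [hI, Set.Finite.mem_toFinset]
      rfl
    have hcard : (I.card : ℝ) ≤ Sp * (2 * ρ) ^ p := by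
      have h1 : (I.card : ℝ) * (1 / (2 * ρ)) ^ p ≤ ∑ i ∈ I, s i ^ p := by
        rw [← nsmul_eq_mul, ← Finset.sum_const]
        exact Finset.sum_le_sum fun i hi =>
          Real.rpow_le_rpow (by positivity) ((hmem i).mp hi).le hp.le
      have h2 : ∑ i ∈ I, s i ^ p ≤ Sp := by
        rw [hSg]
        exact hsum.sum_le_tsum I fun i _ => Real.rpow_nonneg (hs i) p
      have h3 : (1 / (2 * ρ)) ^ p * (2 * ρ) ^ p = 1 := by
        rw [← Real.mul_rpow (by positivity) (by positivity), one_div,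
          inv_mul_cancel₀ (by positivity), Real.one_rpow]
      calc (I.card : ℝ) = ((I.card : ℝ) * (1 / (2 * ρ)) ^ p) * (2 * ρ) ^ p := by
            rw [mul_assoc, h3, mul_one]
        _ ≤ Sp * (2 * ρ) ^ p :=
            mul_le_mul_of_nonneg_right (h1.trans h2) (Real.rpow_nonneg (by positivity) _)
    -- the enumeration
    obtain ⟨g⟩ : Nonempty (Fin I.card ≃ I) := ⟨I.equivFin.symm⟩
    refine ⟨I.card, fun k => (s (g k) : ℂ) • innerSL ℂ (e (g k)), fun k => f (g k), ρ, hρ1, ?_, ?_,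
      ?_, ?_, ?_⟩
    · have h1 : (2 * ρ) ^ p ≤ (2 * B) ^ p * d ^ (-p) := by
        have h2 : (2 * ρ) ^ p ≤ ((2 * B) * d⁻¹) ^ p :=
          Real.rpow_le_rpow (by positivity) (by linarith) hp.le
        have h3 : ((2 * B) * d⁻¹) ^ p = (2 * B) ^ p * d ^ (-p) := by
          rw [Real.mul_rpow (x := 2 * B) (y := d⁻¹) (by positivity) (by positivity),
            Real.inv_rpow hd.le, ← Real.rpow_neg hd.le]
        rw [← h3]
        exact h2
      have h3 : Sp * (2 * ρ) ^ p ≤ Sp * (2 * B) ^ p * d ^ (-(max p 1)) := by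
        calc Sp * (2 * ρ) ^ p ≤ Sp * ((2 * B) ^ p * d ^ (-p)) := mul_le_mul_of_nonneg_left h1 hSg0
          _ = Sp * (2 * B) ^ p * d ^ (-p) := by ring
          _ ≤ _ := mul_le_mul_of_nonneg_left (hdA p (le_max_left _ _)) hPB
      have h4 : 0 ≤ B * d ^ (-(max p 1)) := by positivity
      rw [add_mul]
      linarith
    · have h1 : Real.log ρ ≤ ρ := (Real.log_le_sub_one_of_pos hρ0).trans (by linarith)
      have h2 : ρ ≤ B * d ^ (-(max p 1)) := hρB.trans (mul_le_mul_of_nonneg_left hd1' hB0.le)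
      have h4 : 0 ≤ Sp * (2 * B) ^ p * d ^ (-(max p 1)) := mul_nonneg hPB hdA0.le
      rw [add_mul]
      linarith
    · intro k
      constructor
      · rw [norm_smul, innerSL_apply_norm, he.norm_eq_one, mul_one, Complex.norm_real,
          Real.norm_eq_abs, abs_of_nonneg (hs _)]
        have := hsK (g k)
        rw [hρ]
        linarith
      · rw [hf.norm_eq_one]
        exact hρ1
    · intro z hz
      have h1 : ‖resolvent N z‖ ≤ 1 / d := by
        refine res_le hN hd fun w hw => ?_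
        have h2 := infDist_le_dist_of_mem (x := z) (hspec hw)
        rw [dist_eq_norm] at h2
        linarith
      rw [hρ]
      linarith
    · have h1 : ‖K - ∑ k, ((s (g k) : ℂ) • innerSL ℂ (e (g k))).smulRight (f (g k))‖ ≤
          1 / (2 * ρ) := by
        refine ContinuousLinearMap.opNorm_le_bound _ (by positivity) fun x => ?_
        have h2 : (K - ∑ k, ((s (g k) : ℂ) • innerSL ℂ (e (g k))).smulRight (f (g k))) x =
            K x - ∑ i ∈ I, ((s i : ℂ) * ⟪e i, x⟫_ℂ) • f i := by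
          rw [ContinuousLinearMap.sub_apply, ContinuousLinearMap.sum_apply]
          congr 1
          rw [← Finset.sum_coe_sort I (fun i => ((s i : ℂ) * ⟪e i, x⟫_ℂ) • f i)]
          exact Fintype.sum_equiv g _ _ fun k => rfl
        rw [h2]
        have h3 : HasSum (fun i => if i ∈ I then ((s i : ℂ) * ⟪e i, x⟫_ℂ) • f i else 0)
            (∑ i ∈ I, ((s i : ℂ) * ⟪e i, x⟫_ℂ) • f i) := by
          have h4 : ∑ i ∈ I, ((s i : ℂ) * ⟪e i, x⟫_ℂ) • f i =
              ∑ i ∈ I, (if i ∈ I then ((s i : ℂ) * ⟪e i, x⟫_ℂ) • f i else 0) :=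
            Finset.sum_congr rfl fun i hi => by rw [if_pos hi]
          rw [h4]
          exact hasSum_sum_of_ne_finset_zero fun i hi => if_neg hi
        have h5 := (hKx x).sub h3
        have h6 : (fun i => ((s i : ℂ) * ⟪e i, x⟫_ℂ) • f i -
            (if i ∈ I then ((s i : ℂ) * ⟪e i, x⟫_ℂ) • f i else 0)) =
            fun i => ((if i ∈ I then (0 : ℂ) else (s i : ℂ)) * ⟪e i, x⟫_ℂ) • f i := by
          funext i
          by_cases hi : i ∈ I
          · rw [if_pos hi, if_pos hi, sub_self, zero_mul, zero_smul]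
          · rw [if_neg hi, if_neg hi, sub_zero]
        rw [h6] at h5
        refine series_le he hf (by positivity) (fun i => ?_) h5
        by_cases hi : i ∈ I
        · rw [if_pos hi, norm_zero]; positivity
        · rw [if_neg hi, Complex.norm_real, Real.norm_eq_abs, abs_of_nonneg (hs i)]
          rw [hmem, not_lt] at hi
          exact hi
      calc ‖K - ∑ k, ((s (g k) : ℂ) • innerSL ℂ (e (g k))).smulRight (f (g k))‖ * ρ ≤
            1 / (2 * ρ) * ρ := mul_le_mul_of_nonneg_right h1 hρ0.le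
        _ = 1 / 2 := by field_simp

end

end Pool.Agent.H548.LL
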